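import Pool.Agent.N300.UN.All

/-!
# Maps `C([0,1]^n) → C([0,1])^{*∞}` with the same trace are approximately unitarily equivalent

Idea.  Let `D` be the reduced free product of countably many copies of `C([0,1])`, `φ, ψ` two
injective unital homomorphisms `C([0,1]^n) → D` with the same trace.

1. Up to a small perturbation there are still infinitely many copies of `C([0,1])` which are free
   from the images of `φ` and `ψ` (`D ≅ D * D` by a map which is almost the identity).
2. With a free Haar unitary `u` and a free semicircular element `s`, the element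
   `T = ∑ c_a φ(h_a) u^a s u^a ψ(h_a)` (`h_a` a fine partition of unity, `c_a` normalising constants)
   satisfies `φ(f) T ≈ T ψ(f)` and `T* T` has the law of `s²`, hence no atom at `0`.
   (Fock space estimates.)
3. Since `D` has stable rank one, the polar part of `T`, cut down near `0`, is given by a unitary
   `w`, so that `φ` and `w ψ w*` almost agree off an almost central positive element `P` with
   support of small trace.
4. Absorption: a second free pair `(u', s')` gives almost isometries from the small corner to its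
   complement, which intertwine `φ` with the maps `f ↦ f((1 - t σ) φ)`, `f ↦ f((1 - t σ) w ψ w*)`,
   where `σ` is a cutoff of `P`: these connect `φ` and `w ψ w*` on the corner by a path.
   An infinite-repeat type zigzag then gives a unitary conjugating `φ` almost to `w ψ w*`.
-/

set_option autoImplicit false

open scoped ComplexConjugate ComplexOrder

noncomputable section

namespace Pool.Agent.Results.MP_401a3a_an.ApproxEquivalence

/-- `(A, φ)` with the embeddings `e j : D → A`, `j ∈ κ`, is the reduced free power (Avitzour,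
Voiculescu) `(D, t)^{*κ}`: `φ` is a state which restricts to `t` on each copy, the copies are free
with respect to `φ` (alternating products of centred elements have expectation zero), they generate
`A` as a C*-algebra, and the GNS representation of `φ` is faithful. -/
structure IsReducedFreePower {κ D : Type} [CStarAlgebra D] (t : D → ℂ) {A : Type} [CStarAlgebra A]
    (φ : A →ₗ[ℂ] ℂ) (e : κ → D →⋆ₐ[ℂ] A) : Prop where
  one : φ 1 = 1
  pos : ∀ x, 0 ≤ φ (star x * x)
  marginal : ∀ j d, φ (e j d) = t d
  free : ∀ w : List (κ × D), w ≠ [] → w.IsChain (fun a b => a.1 ≠ b.1) →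
    (∀ z ∈ w, t z.2 = 0) → φ ((w.map fun z => e z.1 z.2).prod) = 0
  generating : (⨆ j, (e j).range).topologicalClosure = (⊤ : StarSubalgebra ℂ A)
  gns_faithful : ∀ a, (∀ x, φ (star (a * x) * (a * x)) = 0) → a = 0

/-- `t` is a tracial state. -/
structure IsTracialState {A : Type} [CStarAlgebra A] (t : A →ₗ[ℂ] ℂ) : Prop where
  one : t 1 = 1
  comm : ∀ x y, t (x * y) = t (y * x)
  pos : ∀ x, 0 ≤ t (star x * x)

/-- The Lebesgue trace `f ↦ ∫₀¹ f` on `C([0,1])`. -/
def leb (f : C(unitInterval, ℂ)) : ℂ := ∫ x : unitInterval, f x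

/-- `φ` and `ψ` are approximately unitarily equivalent. -/
def ApproxUnitarilyEquivalent {B A : Type} [CStarAlgebra B] [CStarAlgebra A]
    (φ ψ : B →⋆ₐ[ℂ] A) : Prop :=
  ∀ (F : Finset B) (ε : ℝ), 0 < ε → ∃ u : unitary A, ∀ b ∈ F,
    ‖(u : A) * φ b * star (u : A) - ψ b‖ < ε

open Pool.Agent.H923R2

theorem gen_eq {κ D A : Type} [CStarAlgebra D] [CStarAlgebra A] (e : κ → D →⋆ₐ[ℂ] A) :
    (⨆ j, (e j).range) = StarAlgebra.adjoin ℂ (⋃ j, Set.range (e j)) := by
  apply le_antisymm
  · refine iSup_le fun j => ?_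
    rintro x ⟨y, rfl⟩
    exact StarAlgebra.subset_adjoin ℂ _ (Set.mem_iUnion.2 ⟨j, y, rfl⟩)
  · refine StarAlgebra.adjoin_le ?_
    refine Set.iUnion_subset fun j => ?_
    rintro x ⟨y, rfl⟩
    exact (le_iSup (fun j => (e j).range) j) ⟨y, rfl⟩

theorem toRFP {κ D A : Type} [CStarAlgebra D] [CStarAlgebra A] {t : D → ℂ} {φ : A →ₗ[ℂ] ℂ}
    {e : κ → D →⋆ₐ[ℂ] A} (h : IsReducedFreePower t φ e) :
    FZ.IsRFP (J := κ) (fun _ => D) (fun _ => t) φ e where
  one := h.one
  nonneg := h.pos
  tr := h.marginal
  free := by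
    intro w hw hc hz
    have := h.free (w.map fun z => (z.1, z.2)) (by simpa using hw)
      (by rw [List.isChain_map]; exact hc)
      (by
        intro z hz'
        obtain ⟨y, hy, rfl⟩ := List.mem_map.1 hz'
        exact hz y hy)
    rwa [List.map_map] at this
  gen := by rw [← gen_eq]; exact h.generating
  gns := h.gns_faithful

theorem ofRFP {κ D A : Type} [CStarAlgebra D] [CStarAlgebra A] {t : D → ℂ} {φ : A →ₗ[ℂ] ℂ}
    {e : κ → D →⋆ₐ[ℂ] A} (h : FZ.IsRFP (J := κ) (fun _ => D) (fun _ => t) φ e) :
    IsReducedFreePower t φ e where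
  one := h.one
  pos := h.nonneg
  marginal := h.tr
  free := by
    intro w hw hc hz
    have := h.free (w.map fun z => (⟨z.1, z.2⟩ : Σ _ : κ, D)) (by simpa using hw)
      (by rw [List.isChain_map]; exact hc)
      (by
        intro z hz'
        obtain ⟨y, hy, rfl⟩ := List.mem_map.1 hz'
        exact hz y hy)
    rwa [List.map_map] at this
  generating := by rw [gen_eq]; exact h.gen
  gns_faithful := h.gns

/-- **Theorem.** The reduced free product `D = C([0,1])^{*∞}` of countably infinitely many copies of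
`C([0,1])` (with the Lebesgue trace) exists, and its free product state `τ` is a tracial state. For
every `n`, any two injective unital homomorphisms `φ, ψ : C([0,1]^n) → D` with `τ ∘ φ = τ ∘ ψ` are
approximately unitarily equivalent. -/
theorem result :
    (∃ (D : Type) (_ : CStarAlgebra D) (τ : D →ₗ[ℂ] ℂ) (e : ℕ → C(unitInterval, ℂ) →⋆ₐ[ℂ] D),
      IsReducedFreePower leb τ e) ∧
    ∀ (D : Type) [CStarAlgebra D] (τ : D →ₗ[ℂ] ℂ) (e : ℕ → C(unitInterval, ℂ) →⋆ₐ[ℂ] D),
      IsReducedFreePower leb τ e → IsTracialState τ ∧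
      ∀ (n : ℕ) (φ ψ : C(Fin n → unitInterval, ℂ) →⋆ₐ[ℂ] D), Function.Injective φ →
        Function.Injective ψ → (∀ f, τ (φ f) = τ (ψ f)) → ApproxUnitarilyEquivalent φ ψ := by
  have tl : ∀ x y : C(unitInterval, ℂ), FP.leb (x * y) = FP.leb (y * x) := fun x y => by
    rw [mul_comm]
  refine ⟨?_, ?_⟩
  · obtain ⟨l, hl, hleb⟩ := FZ.T_LEBF.t_LEBF
    obtain ⟨W, iW, τW, g, hW⟩ := FZ.All.ex ℕ (fun _ => C(unitInterval, ℂ))
      (fun _ => inferInstance) (fun _ => l) (fun _ => hl)
    have h1 := FZ.T_GNSB.t_GNSB ℕ (fun _ => C(unitInterval, ℂ)) (fun _ x => l x) W τW g hW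
    have h2 : (fun (_ : ℕ) (x : C(unitInterval, ℂ)) => l x) = fun _ => leb := by
      funext k x
      exact hleb x
    rw [h2] at h1
    exact ⟨W, iW, τW, g, ofRFP h1⟩
  · intro D _ τ e h
    have hR := FZ.T_GNSF.t_GNSF FZ.T_TRC.t_TRC ℕ (fun _ => C(unitInterval, ℂ)) (fun _ => leb) D τ e
      (fun _ => tl) (toRFP h)
    refine ⟨⟨h.one, hR.fts.comm, h.pos⟩, ?_⟩
    intro n φ ψ hφ _ heq F ε hε
    have hw := FZ.T_SPL.t_SPL D τ e hR 0
    exact Pool.Agent.N300.UN.All.uw _ _ _ D τ _ _ hw n φ ψ hφ heq F ε hε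

end Pool.Agent.Results.MP_401a3a_an.ApproxEquivalence
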